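import Pool.Agent.L7h88.BW.Stm

/-!
Project BW (helper88), part PSV: Parseval's identity for windows.
-/

set_option autoImplicit false

namespace Pool.Agent.L7h23.BW

open Finset MeasureTheory
open Pool.Agent.H376R2.MR (ch DP)
open Pool.Agent.L7h88.BW (S_PSV gk)

/-- the integral of a cut function -/
lemma int_cut (E : ℝ → ℂ) {v0 δ x : ℝ} (c : ℂ) (h1 : v0 + δ ≤ x)
    (h2 : x < v0 + 2 * Real.pi) (hδ : 0 < δ) :
    ∫ u in v0..(v0 + 2 * Real.pi), E u * (if u < x ∧ x ≤ u + δ then c else 0) =
      c * ∫ u in (x - δ)..x, E u := by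
  have hpi := Real.pi_pos
  rw [intervalIntegral.integral_of_le (by linarith), intervalIntegral.integral_of_le (by linarith)]
  have e1 : ∀ u : ℝ, E u * (if u < x ∧ x ≤ u + δ then c else 0) =
      (Set.Ico (x - δ) x).indicator (fun u => c * E u) u := by
    intro u
    by_cases h : u < x ∧ x ≤ u + δ
    · rw [if_pos h, Set.indicator_of_mem (by constructor <;> linarith [h.1, h.2])]
      ring
    · rw [if_neg h, mul_zero, Set.indicator_of_notMem]
      rintro ⟨h3, h4⟩
      exact h ⟨h4, by linarith⟩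
  simp_rw [e1]
  rw [setIntegral_indicator measurableSet_Ico]
  have e2 : (Set.Ioc v0 (v0 + 2 * Real.pi) ∩ Set.Ico (x - δ) x : Set ℝ) =ᵐ[volume] Set.Ioc (x - δ) x := by
    have e3 : (Set.Ioc v0 (v0 + 2 * Real.pi) ∩ Set.Ico (x - δ) x : Set ℝ) =ᵐ[volume]
        (Set.Ioc v0 (v0 + 2 * Real.pi) ∩ Set.Ioc (x - δ) x : Set ℝ) :=
      (Filter.EventuallyEq.refl _ _).inter Ico_ae_eq_Ioc
    have e4 : (Set.Ioc v0 (v0 + 2 * Real.pi) ∩ Set.Ioc (x - δ) x : Set ℝ) = Set.Ioc (x - δ) x := by
      rw [Set.inter_eq_right]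
      intro u hu
      exact ⟨by linarith [hu.1], by linarith [hu.2]⟩
    rw [e4] at e3
    exact e3
  rw [setIntegral_congr_set e2, integral_const_mul]

/-- the factor -/
noncomputable def ckk (δ : ℝ) (k : ℤ) : ℂ :=
  if k = 0 then (δ : ℂ) else (Complex.exp ((k * δ : ℝ) * Complex.I) - 1) / ((k : ℂ) * Complex.I)

lemma int_exp (δ x : ℝ) (k : ℤ) :
    ∫ u in (x - δ)..x, Complex.exp (-(k * u : ℝ) * Complex.I) =
      ch k x * ckk δ k := by
  unfold ckk ch
  by_cases hk : k = 0
  · subst hk
    simp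
  · rw [if_neg hk]
    have hkc : (k : ℂ) ≠ 0 := by exact_mod_cast hk
    have hc : (-(k : ℂ) * Complex.I) ≠ 0 := mul_ne_zero (neg_ne_zero.2 hkc) Complex.I_ne_zero
    have h := integral_exp_mul_complex (a := x - δ) (b := x) hc
    have e1 : ∀ u : ℝ, Complex.exp (-(k * u : ℝ) * Complex.I) = Complex.exp (-(k : ℂ) * Complex.I * u) := by
      intro u
      congr 1
      push_cast
      ring
    simp_rw [e1]
    rw [h]
    have e2 : Complex.exp (-(k : ℂ) * Complex.I * ((x - δ : ℝ) : ℂ)) =
        Complex.exp (-(k : ℂ) * Complex.I * x) * Complex.exp ((k * δ : ℝ) * Complex.I) := by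
      rw [← Complex.exp_add]
      congr 1
      push_cast
      ring
    rw [e2]
    have hI : Complex.I ≠ 0 := Complex.I_ne_zero
    field_simp
    ring

lemma norm_ckk {δ : ℝ} (hδ : 0 < δ) (k : ℤ) : ‖ckk δ k‖ / (2 * Real.pi) = gk δ k := by
  unfold ckk gk
  have hpi := Real.pi_pos
  by_cases hk : k = 0
  · rw [if_pos hk, if_pos hk, Complex.norm_real, Real.norm_of_nonneg hδ.le]
  · rw [if_neg hk, if_neg hk, norm_div, norm_mul, Complex.norm_I, mul_one, Complex.norm_intCast]
    have hkc : (k : ℝ) ≠ 0 := by exact_mod_cast hk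
    have h1 : ‖Complex.exp ((k * δ : ℝ) * Complex.I) - 1‖ = 2 * |Real.sin (k * δ / 2)| := by
      have h2 := Complex.norm_exp_I_mul_ofReal_sub_one (k * δ)
      rw [mul_comm Complex.I] at h2
      rw [h2, Real.norm_eq_abs, abs_mul, abs_two]
    rw [h1]
    have hk' : |(k : ℝ)| ≠ 0 := abs_ne_zero.2 hkc
    field_simp

theorem s_PSV : S_PSV := by
  intro s b v0 δ hδ hδ1 hs
  have hpi := Real.pi_pos
  have hab : v0 < v0 + 2 * Real.pi := by linarith
  set f : ℝ → ℂ := fun u => ∑ n ∈ s.filter (fun n : ℕ => u < Real.log n ∧ Real.log n ≤ u + δ), b n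
    with hf
  have hf' : ∀ u, f u = ∑ n ∈ s, if u < Real.log n ∧ Real.log n ≤ u + δ then b n else 0 := by
    intro u
    rw [hf]
    simp only
    rw [sum_filter]
  have hmeas : Measurable f := by
    have e : f = fun u => ∑ n ∈ s, if u < Real.log n ∧ Real.log n ≤ u + δ then b n else 0 := by
      funext u; exact hf' u
    rw [e]
    refine Finset.measurable_sum _ fun n _ => ?_
    refine Measurable.ite ?_ measurable_const measurable_const
    have e2 : {u : ℝ | u < Real.log n ∧ Real.log n ≤ u + δ} = Set.Ico (Real.log n - δ) (Real.log n) := by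
      ext u
      simp only [Set.mem_setOf_eq, Set.mem_Ico]
      constructor
      · rintro ⟨h1, h2⟩; exact ⟨by linarith, h1⟩
      · rintro ⟨h1, h2⟩; exact ⟨h2, by linarith⟩
    rw [e2]
    exact measurableSet_Ico
  have hbd : ∀ u, ‖f u‖ ≤ ∑ n ∈ s, ‖b n‖ := by
    intro u
    rw [hf']
    refine (norm_sum_le _ _).trans (sum_le_sum fun n _ => ?_)
    split_ifs
    · exact le_refl _
    · rw [norm_zero]; exact norm_nonneg _
  have hL2 : MemLp f 2 (volume.restrict (Set.Ioc v0 (v0 + 2 * Real.pi))) :=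
    MemLp.of_bound hmeas.aestronglyMeasurable _ (Filter.Eventually.of_forall hbd)
  have H := hasSum_sq_fourierCoeffOn hab hL2
  have eT : v0 + 2 * Real.pi - v0 = 2 * Real.pi := by ring
  have hco : ∀ k : ℤ, ‖fourierCoeffOn hab f k‖ ^ 2 = gk δ k ^ 2 * ‖DP s b k‖ ^ 2 := by
    intro k
    have e1 : fourierCoeffOn hab f k = (1 / (2 * Real.pi) : ℝ) • (DP s b k * ckk δ k) := by
      rw [fourierCoeffOn_eq_integral, eT]
      congr 1
      have e2 : ∀ u : ℝ, (fourier (-k) (u : AddCircle (2 * Real.pi))) • f u =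
          ∑ n ∈ s, Complex.exp (-(k * u : ℝ) * Complex.I) *
            (if u < Real.log n ∧ Real.log n ≤ u + δ then b n else 0) := by
        intro u
        rw [hf', smul_eq_mul, fourier_coe_apply, mul_sum]
        refine sum_congr rfl fun n _ => ?_
        congr 2
        have hpic : (Real.pi : ℂ) ≠ 0 := by exact_mod_cast hpi.ne'
        push_cast
        field_simp
      simp_rw [e2]
      rw [intervalIntegral.integral_finset_sum]
      · unfold DP
        rw [sum_mul]
        refine sum_congr rfl fun n hn => ?_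
        obtain ⟨h0, h1, h2⟩ := hs n hn
        rw [int_cut _ _ h1 h2 hδ, int_exp]
        ring
      · intro n _
        have hc : Continuous (fun u : ℝ => Complex.exp (-(k * u : ℝ) * Complex.I)) := by fun_prop
        rw [intervalIntegrable_iff_integrableOn_Ioc_of_le hab.le]
        refine Measure.integrableOn_of_bounded (M := ‖b n‖) measure_Ioc_lt_top.ne ?_ ?_
        · refine (hc.measurable.mul (Measurable.ite ?_ measurable_const measurable_const)).aestronglyMeasurable
          have e3 : {u : ℝ | u < Real.log n ∧ Real.log n ≤ u + δ} = Set.Ico (Real.log n - δ) (Real.log n) := by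
            ext u
            simp only [Set.mem_setOf_eq, Set.mem_Ico]
            constructor
            · rintro ⟨h1, h2⟩; exact ⟨by linarith, h1⟩
            · rintro ⟨h1, h2⟩; exact ⟨h2, by linarith⟩
          rw [e3]
          exact measurableSet_Ico
        · refine Filter.Eventually.of_forall fun u => ?_
          have e3 : ‖Complex.exp (-(k * u : ℝ) * Complex.I)‖ = 1 := by
            rw [← Complex.ofReal_neg]
            exact Complex.norm_exp_ofReal_mul_I _
          rw [norm_mul, e3, one_mul]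
          split_ifs
          · exact le_refl _
          · rw [norm_zero]; exact norm_nonneg _
    rw [e1, norm_smul, norm_mul, ← norm_ckk hδ, Real.norm_of_nonneg (by positivity)]
    ring
  simp_rw [hco] at H
  have e5 : (v0 + 2 * Real.pi - v0)⁻¹ • ∫ x in v0..(v0 + 2 * Real.pi), ‖f x‖ ^ 2 =
      1 / (2 * Real.pi) * ∫ x in v0..(v0 + 2 * Real.pi), ‖f x‖ ^ 2 := by
    rw [smul_eq_mul, eT, one_div]
  rw [e5] at H
  exact H

end Pool.Agent.L7h23.BW
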