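import Pool.Agent.L7h23.BW.Dvm

/-!
Project BW (helper88), part BADC: few bad characters.
-/

set_option autoImplicit false

namespace Pool.Agent.L7h23.BW

open Finset MeasureTheory
open Pool.Agent.H376R2.MR (ch DP FK w)
open Pool.Agent.Q240.KS (cf sp zY)
open Pool.Agent.L7h88.BW (S_MSP S_BADC PX prm Good Kc Fc)

/-- the trivial factor -/
lemma PX_one {q : ℕ} (χ : DirichletCharacter ℂ q) (z : ℕ) (k : ℤ) : PX χ z 1 0 k = 1 := by
  have h1 : ⌊Real.exp (((0 : ℕ) : ℝ) + 1) / 20⌋₊ = ⌊Real.exp (((0 : ℕ) : ℝ) + 1) / 20⌋₊ := rfl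
  have h2 : sp 0 = {1} := by
    unfold sp
    have h3 : ⌊Real.exp ((((0 : ℕ) : ℝ) + 1) / 20)⌋₊ = 1 := by
      rw [Nat.floor_eq_iff (Real.exp_pos _).le]
      constructor
      · rw [Nat.cast_one]
        exact Real.one_le_exp (by norm_num)
      · have h4 : Real.exp ((((0 : ℕ) : ℝ) + 1) / 20) ≤ Real.exp (1 / 2) := Real.exp_le_exp.2 (by norm_num)
        have h6 : Real.exp (1 / 2) < 2 := by
          have h7 := Real.exp_one_lt_d9
          have h8 : Real.exp (1 / 2) ^ 2 = Real.exp 1 := by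
            rw [← Real.exp_nat_mul]
            norm_num
          nlinarith [Real.exp_pos (1 / 2)]
        push_cast at h4 ⊢
        linarith
    rw [h3]
    rfl
  unfold PX
  rw [h2, sum_singleton]
  unfold cf w ch
  simp

/-- the product of the six equal factors -/
lemma prod_six {q : ℕ} (χ : DirichletCharacter ℂ q) (z : ℕ) (t : Fin 3) (d : ℕ) (k : ℤ) :
    ∏ i : Fin 10, PX χ z (if (i : ℕ) < 6 then t else 1) (if (i : ℕ) < 6 then d else 0) k =
      PX χ z t d k ^ 6 := by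
  have h1 : ∀ i : Fin 10, PX χ z (if (i : ℕ) < 6 then t else 1) (if (i : ℕ) < 6 then d else 0) k =
      if (i : ℕ) < 6 then PX χ z t d k else 1 := by
    intro i
    split_ifs
    · rfl
    · exact PX_one χ z k
  simp_rw [h1]
  rw [prod_ite, prod_const, prod_const_one, mul_one]
  congr 1

lemma sum_six (d : ℕ) : ∑ i : Fin 10, (((if (i : ℕ) < 6 then d else 0 : ℕ)) : ℝ) = 6 * d := by
  have h : ∑ i : Fin 10, (if (i : ℕ) < 6 then d else 0 : ℕ) = 6 * d := by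
    rw [sum_ite, sum_const, sum_const_zero, add_zero]
    rfl
  exact_mod_cast h

lemma mem_prm {f : ℕ} {P : DirichletCharacter ℂ f → Prop} {χ : DirichletCharacter ℂ f} :
    χ ∈ prm f P ↔ χ.IsPrimitive ∧ P χ := by
  unfold prm
  simp

lemma le_triple {κ : Type*} (R : Finset ℕ) (T : Finset κ) (g : Fin 3 → ℕ → κ → ℝ)
    (hg : ∀ t d k, 0 ≤ g t d k) (t0 : Fin 3) {d0 : ℕ} {k0 : κ} (hd : d0 ∈ R) (hk : k0 ∈ T) :
    g t0 d0 k0 ≤ ∑ t : Fin 3, ∑ d ∈ R, ∑ k ∈ T, g t d k := by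
  have h1 : g t0 d0 k0 ≤ ∑ k ∈ T, g t0 d0 k := single_le_sum (fun k _ => hg t0 d0 k) hk
  have h2 : ∑ k ∈ T, g t0 d0 k ≤ ∑ d ∈ R, ∑ k ∈ T, g t0 d k :=
    single_le_sum (f := fun d => ∑ k ∈ T, g t0 d k) (fun d _ => sum_nonneg fun k _ => hg t0 d k) hd
  have h3 : ∑ d ∈ R, ∑ k ∈ T, g t0 d k ≤ ∑ t : Fin 3, ∑ d ∈ R, ∑ k ∈ T, g t d k :=
    single_le_sum (f := fun t => ∑ d ∈ R, ∑ k ∈ T, g t d k)
      (fun t _ => sum_nonneg fun d _ => sum_nonneg fun k _ => hg t d k) (mem_univ t0)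
  exact h1.trans (h2.trans h3)

lemma swap4 (A R : Finset ℕ) (X : ℕ → Type) (P : (f : ℕ) → Finset (X f)) (c : ℝ)
    (h : (f : ℕ) → X f → Fin 3 → ℕ → ℝ) :
    ∑ f ∈ A, ∑ χ ∈ P f, c * ∑ t : Fin 3, ∑ d ∈ R, h f χ t d =
      c * ∑ t : Fin 3, ∑ d ∈ R, ∑ f ∈ A, ∑ χ ∈ P f, h f χ t d := by
  simp_rw [← mul_sum]
  congr 1
  have e2 : ∀ f ∈ A, ∑ χ ∈ P f, ∑ t : Fin 3, ∑ d ∈ R, h f χ t d =
      ∑ t : Fin 3, ∑ d ∈ R, ∑ χ ∈ P f, h f χ t d := by
    intro f _
    rw [sum_comm]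
    refine sum_congr rfl fun t _ => ?_
    rw [sum_comm]
  rw [sum_congr rfl e2, sum_comm]
  refine sum_congr rfl fun t _ => ?_
  rw [sum_comm]

/-- the last numerical step -/
lemma fin_num {Y S c : ℝ} {B0 C : ℕ} (hY1 : (1000 : ℝ) ≤ Y) (hY2 : (60 : ℝ) ^ (C + 4) * C ≤ Y)
    (hc : c ≤ 10 * Y) (hS : S ≤ 9 * c * (C * (60 * Y) ^ C)) :
    Y ^ (12 * B0) * S ≤ Y ^ (12 * B0 + 2 * C + 4) := by
  have hY0 : (0 : ℝ) ≤ Y := by linarith
  have hYp : (1 : ℝ) ≤ Y := by linarith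
  calc Y ^ (12 * B0) * S
      ≤ Y ^ (12 * B0) * (9 * (10 * Y) * (C * (60 * Y) ^ C)) := by
        refine mul_le_mul_of_nonneg_left (hS.trans ?_) (by positivity)
        refine mul_le_mul_of_nonneg_right ?_ (by positivity)
        linarith
    _ = Y ^ (12 * B0) * (Y * (90 * (60 ^ C * C)) * Y ^ C) := by rw [mul_pow]; ring
    _ ≤ Y ^ (12 * B0) * (Y * (60 ^ (C + 4) * C) * Y ^ C) := by
        refine mul_le_mul_of_nonneg_left ?_ (by positivity)
        refine mul_le_mul_of_nonneg_right ?_ (by positivity)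
        refine mul_le_mul_of_nonneg_left ?_ hY0
        rw [pow_add]
        have h8 : (0 : ℝ) ≤ 60 ^ C * C := by positivity
        nlinarith
    _ ≤ Y ^ (12 * B0) * (Y * Y * Y ^ C) := by
        refine mul_le_mul_of_nonneg_left ?_ (by positivity)
        refine mul_le_mul_of_nonneg_right ?_ (by positivity)
        exact mul_le_mul_of_nonneg_left hY2 hY0
    _ = Y ^ (12 * B0 + 2 + C) := by ring
    _ ≤ Y ^ (12 * B0 + 2 * C + 4) := pow_le_pow_right₀ hYp (by omega)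

theorem s_BADC (hS : S_MSP) : S_BADC := by
  classical
  obtain ⟨C, hC, hS⟩ := hS
  intro B0
  -- eventually all the crude bounds hold
  refine ⟨12 * B0 + 2 * C + 4, max 1000 (60 ^ (C + 4) * C), ?_⟩
  intro Y hY
  have hY1 : (1000 : ℝ) ≤ Y := le_trans (le_max_left _ _) hY
  have hY2 : (60 : ℝ) ^ (C + 4) * C ≤ Y := le_trans (le_max_right _ _) hY
  set F := Fc Y with hF
  set K := Kc Y + 1 with hK
  set z := zY Y
  have hF1 : 1 ≤ F := by
    rw [hF]
    unfold Fc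
    apply Nat.le_floor
    rw [Nat.cast_one]
    exact Real.one_le_exp (by positivity)
  have hFle : (F : ℝ) ≤ Real.exp (Y / 100) := Nat.floor_le (Real.exp_pos _).le
  have hKle : (K : ℝ) ≤ 2 * Real.exp (0.505 * Y) := by
    rw [hK]
    push_cast
    have h1 : (Kc Y : ℝ) ≤ Real.exp (0.505 * Y) := Nat.floor_le (Real.exp_pos _).le
    have h2 : (1 : ℝ) ≤ Real.exp (0.505 * Y) := Real.one_le_exp (by positivity)
    linarith
  have hFK : (F : ℝ) ^ 2 * K ≤ 2 * Real.exp (0.525 * Y) := by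
    calc (F : ℝ) ^ 2 * K ≤ Real.exp (Y / 100) ^ 2 * (2 * Real.exp (0.505 * Y)) := by
          apply mul_le_mul (pow_le_pow_left₀ (Nat.cast_nonneg _) hFle 2) hKle (Nat.cast_nonneg _) (by positivity)
      _ = 2 * Real.exp (0.525 * Y) := by
          rw [← Real.exp_nat_mul, mul_left_comm, ← Real.exp_add]
          congr 2
          push_cast
          ring
  set R := (range (⌊9 * Y⌋₊ + 1)).filter (fun d : ℕ => 0.09 * Y ≤ (d : ℝ) / 20) with hR
  -- one pair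
  have one : ∀ (t : Fin 3), ∀ d ∈ R, ∑ f ∈ Icc 1 F, ∑ χ ∈ prm f (fun _ => True), ∑ k ∈ FK K,
      ‖PX χ z t d k‖ ^ 12 ≤ 3 * (C * (60 * Y) ^ C) := by
    intro t d hd
    rw [hR, mem_filter, mem_range] at hd
    have hd1 : (d : ℝ) ≤ 9 * Y := by
      have h1 : d ≤ ⌊9 * Y⌋₊ := by omega
      exact (Nat.cast_le.2 h1).trans (Nat.floor_le (by positivity))
    have h1 := hS F K z (fun i => if (i : ℕ) < 6 then t else 1) (fun i => if (i : ℕ) < 6 then d else 0)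
      hF1 (by omega)
    simp_rw [prod_six, sum_six] at h1
    have h2 : ∀ (f : ℕ) (χ : DirichletCharacter ℂ f) (k : ℤ), ‖PX χ z t d k ^ 6‖ ^ 2 = ‖PX χ z t d k‖ ^ 12 := by
      intro f χ k
      rw [norm_pow, ← pow_mul]
    simp_rw [h2] at h1
    refine h1.trans ?_
    have h3 : (1 + 6 * (d : ℝ)) ^ C ≤ (60 * Y) ^ C := pow_le_pow_left₀ (by positivity) (by linarith) C
    have h4 : (F : ℝ) ^ 2 * K * Real.exp (-(6 * (d : ℝ) / 20)) ≤ 2 := by
      have h5 : Real.exp (-(6 * (d : ℝ) / 20)) ≤ Real.exp (-(0.54 * Y)) :=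
        Real.exp_le_exp.2 (by linarith [hd.2])
      calc (F : ℝ) ^ 2 * K * Real.exp (-(6 * (d : ℝ) / 20))
          ≤ 2 * Real.exp (0.525 * Y) * Real.exp (-(0.54 * Y)) :=
            mul_le_mul hFK h5 (Real.exp_pos _).le (by positivity)
        _ = 2 * Real.exp (-(0.015 * Y)) := by
            rw [mul_assoc, ← Real.exp_add]
            congr 2
            ring
        _ ≤ 2 * 1 := by
            refine mul_le_mul_of_nonneg_left ?_ (by norm_num)
            rw [Real.exp_le_one_iff]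
            linarith
        _ = 2 := by ring
    calc (C : ℝ) * (1 + 6 * (d : ℝ)) ^ C * (1 + (F : ℝ) ^ 2 * K * Real.exp (-(6 * (d : ℝ) / 20)))
        ≤ C * (60 * Y) ^ C * (1 + 2) := by
          apply mul_le_mul (mul_le_mul_of_nonneg_left h3 (Nat.cast_nonneg _)) (by linarith) (by positivity)
            (by positivity)
      _ = 3 * (C * (60 * Y) ^ C) := by ring
  -- the bad characters
  have bad : ∀ f ∈ Icc 1 F, ((prm f (fun χ => ¬ Good Y B0 χ)).card : ℝ) ≤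
      ∑ χ ∈ prm f (fun _ => True), Y ^ (12 * B0) * ∑ t : Fin 3, ∑ d ∈ R, ∑ k ∈ FK K, ‖PX χ z t d k‖ ^ 12 := by
    intro f _
    have hsub : prm f (fun χ => ¬ Good Y B0 χ) ⊆ prm f (fun _ => True) := by
      intro χ hχ
      rw [mem_prm] at hχ ⊢
      exact ⟨hχ.1, trivial⟩
    rw [← nsmul_one, ← sum_const]
    refine (sum_le_sum fun χ hχ => ?_).trans (sum_le_sum_of_subset_of_nonneg hsub fun χ _ _ => by positivity)
    rw [mem_prm] at hχ
    have hb := hχ.2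
    unfold Good at hb
    push Not at hb
    obtain ⟨t, d, k, h1, h2, h3, h4⟩ := hb
    have hdR : d ∈ R := by
      rw [hR, mem_filter, mem_range]
      refine ⟨?_, h1⟩
      have : d ≤ ⌊9 * Y⌋₊ := Nat.le_floor (by linarith)
      omega
    have hkK : k ∈ FK K := by
      unfold FK
      rw [mem_Ioo]
      rw [abs_le] at h3
      have h5 : -((Kc Y : ℕ) : ℤ) ≤ k := by
        have := h3.1
        exact_mod_cast this
      have h6 : k ≤ ((Kc Y : ℕ) : ℤ) := by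
        have := h3.2
        exact_mod_cast this
      rw [hK]
      push_cast
      omega
    have hY0 : (0 : ℝ) < Y := by linarith
    have h5 : (1 / Y ^ B0) ^ 12 ≤ ‖PX χ z t d k‖ ^ 12 := pow_le_pow_left₀ (by positivity) h4.le 12
    have h6 : ‖PX χ z t d k‖ ^ 12 ≤ ∑ t : Fin 3, ∑ d ∈ R, ∑ k ∈ FK K, ‖PX χ z t d k‖ ^ 12 :=
      le_triple R (FK K) (fun t d k => ‖PX χ z t d k‖ ^ 12) (fun t d k => pow_nonneg (norm_nonneg _) 12)
        t hdR hkK
    have h7 : Y ^ (12 * B0) * (1 / Y ^ B0) ^ 12 = 1 := by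
      rw [div_pow, one_pow, ← pow_mul, mul_comm B0 12, mul_one_div, div_self (by positivity)]
    rw [← h7]
    exact mul_le_mul_of_nonneg_left (h5.trans h6) (by positivity)
  refine (sum_le_sum bad).trans ?_
  rw [swap4 (Icc 1 F) R (fun f => DirichletCharacter ℂ f) (fun f => prm f (fun _ => True)) (Y ^ (12 * B0))
    (fun f χ t d => ∑ k ∈ FK K, ‖PX χ z t d k‖ ^ 12)]
  have h2 : ∑ t : Fin 3, ∑ d ∈ R, ∑ f ∈ Icc 1 F, ∑ χ ∈ prm f (fun _ => True),
        ∑ k ∈ FK K, ‖PX χ z t d k‖ ^ 12 ≤ ∑ t : Fin 3, ∑ d ∈ R, 3 * (C * (60 * Y) ^ C) :=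
    sum_le_sum fun t _ => sum_le_sum fun d hd => one t d hd
  have h3 : ∑ t : Fin 3, ∑ d ∈ R, 3 * (C * (60 * Y) ^ C) = 9 * (R.card : ℝ) * (C * (60 * Y) ^ C) := by
    rw [sum_const, sum_const, card_univ, Fintype.card_fin, nsmul_eq_mul, nsmul_eq_mul]
    push_cast
    ring
  have h4 : (R.card : ℝ) ≤ 10 * Y := by
    have h5 : R.card ≤ ⌊9 * Y⌋₊ + 1 := by
      rw [hR]
      exact (card_filter_le _ _).trans (by rw [card_range])
    have h6 : ((⌊9 * Y⌋₊ : ℕ) : ℝ) ≤ 9 * Y := Nat.floor_le (by positivity)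
    have h7 : (R.card : ℝ) ≤ (⌊9 * Y⌋₊ : ℝ) + 1 := by exact_mod_cast h5
    linarith
  exact fin_num hY1 hY2 h4 (h2.trans h3.le)

end Pool.Agent.L7h23.BW
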