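import Pool.Agent.L7h88.BW.Stm
import Pool.Agent.H398R2.BA1

/-!
Project BW (helper88), parts DVM (divisor moments) and MSP (products of ten factors in mean square).
-/

set_option autoImplicit false

namespace Pool.Agent.L7h23.BW

open Finset MeasureTheory
open Pool.Agent.H376R2.MR (ch DP FK)
open Pool.Agent.L7h88.BW (S_DVM S_PRDX S_HLS S_MSP PX prm)

/-- a general form with an unspecified exponent -/
lemma dvm_gen (m : ℕ) (hm : m = 2 ^ 20) (D G : ℝ) (hD : 0 ≤ D) (hG : 0 ≤ G) :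
    ∑ n ∈ (Icc 1 ⌊Real.exp (D + 1 / 2)⌋₊).filter (fun n : ℕ => |Real.log n - D| ≤ 1 / 2),
      ((n.divisors.card : ℝ) ^ 10 / n) ^ 2 * ((n : ℝ) + G) ≤
      2 * (1 + G * Real.exp (-D)) * (1 + (D + 1 / 2)) ^ m := by
  have h1 := Pool.Agent.H398R2.BV.sum_card_pow_div 20 ⌊Real.exp (D + 1 / 2)⌋₊
  rw [← hm] at h1
  have hfl : (1 : ℝ) ≤ (⌊Real.exp (D + 1 / 2)⌋₊ : ℝ) := by
    have : 1 ≤ ⌊Real.exp (D + 1 / 2)⌋₊ := by
      apply Nat.le_floor
      rw [Nat.cast_one]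
      exact Real.one_le_exp (by linarith)
    exact_mod_cast this
  have hlog : Real.log (⌊Real.exp (D + 1 / 2)⌋₊ : ℝ) ≤ D + 1 / 2 := by
    have h2 : ((⌊Real.exp (D + 1 / 2)⌋₊ : ℕ) : ℝ) ≤ Real.exp (D + 1 / 2) := Nat.floor_le (Real.exp_pos _).le
    have h3 := Real.log_le_log (by linarith) h2
    rwa [Real.log_exp] at h3
  have hlog0 : 0 ≤ Real.log (⌊Real.exp (D + 1 / 2)⌋₊ : ℝ) := Real.log_nonneg hfl
  have h2 : (1 + Real.log (⌊Real.exp (D + 1 / 2)⌋₊ : ℝ)) ^ m ≤ (1 + (D + 1 / 2)) ^ m :=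
    pow_le_pow_left₀ (by linarith) (by linarith) m
  have h3 : ∑ n ∈ (Icc 1 ⌊Real.exp (D + 1 / 2)⌋₊).filter (fun n : ℕ => |Real.log n - D| ≤ 1 / 2),
      ((n.divisors.card : ℝ) ^ 10 / n) ^ 2 * ((n : ℝ) + G) ≤
      ∑ n ∈ (Icc 1 ⌊Real.exp (D + 1 / 2)⌋₊).filter (fun n : ℕ => |Real.log n - D| ≤ 1 / 2),
        2 * (1 + G * Real.exp (-D)) * ((n.divisors.card : ℝ) ^ 20 / n) := by
    refine sum_le_sum fun n hn => ?_
    rw [mem_filter, mem_Icc] at hn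
    obtain ⟨⟨hn1, -⟩, hn2⟩ := hn
    have hn0 : (0 : ℝ) < n := by exact_mod_cast hn1
    rw [abs_le] at hn2
    have h4 : (1 : ℝ) / n ≤ 2 * Real.exp (-D) := by
      rw [div_le_iff₀ hn0]
      have h5 : Real.exp (D - 1 / 2) ≤ n := by
        rw [← Real.exp_log hn0]
        exact Real.exp_le_exp.2 (by linarith)
      have h6 : Real.exp (1 / 2) ≤ 2 := by
        have h7 := Real.exp_one_lt_d9
        have h8 : Real.exp (1 / 2) ^ 2 = Real.exp 1 := by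
          rw [← Real.exp_nat_mul]
          norm_num
        nlinarith [Real.exp_pos (1 / 2)]
      have h9 : Real.exp (-D) * Real.exp (D - 1 / 2) * Real.exp (1 / 2) = 1 := by
        rw [← Real.exp_add, ← Real.exp_add]
        have : -D + (D - 1 / 2) + 1 / 2 = 0 := by ring
        rw [this, Real.exp_zero]
      calc (1 : ℝ) = Real.exp (-D) * Real.exp (D - 1 / 2) * Real.exp (1 / 2) := h9.symm
        _ ≤ Real.exp (-D) * n * 2 := by
          apply mul_le_mul _ h6 (Real.exp_pos _).le (by positivity)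
          exact mul_le_mul_of_nonneg_left h5 (Real.exp_pos _).le
        _ = 2 * Real.exp (-D) * n := by ring
    have e1 : ((n.divisors.card : ℝ) ^ 10 / n) ^ 2 * ((n : ℝ) + G) =
        (1 + G * (1 / n)) * ((n.divisors.card : ℝ) ^ 20 / n) := by
      field_simp
    rw [e1]
    refine mul_le_mul_of_nonneg_right ?_ (by positivity)
    have h5 : G * (1 / n) ≤ G * (2 * Real.exp (-D)) := mul_le_mul_of_nonneg_left h4 hG
    nlinarith
  refine h3.trans ?_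
  rw [← mul_sum]
  refine mul_le_mul_of_nonneg_left ?_ (by positivity)
  refine le_trans ?_ (h1.trans h2)
  exact sum_le_sum_of_subset_of_nonneg (filter_subset _ _) fun _ _ _ => by positivity

theorem s_DVM : S_DVM := by
  obtain ⟨m, hm⟩ : ∃ m : ℕ, m = 2 ^ 20 := ⟨_, rfl⟩
  refine ⟨2 * 2 ^ m + m, ?_, ?_⟩
  · have := Nat.one_le_two_pow (n := m)
    omega
  intro D G hD hG
  refine (dvm_gen m hm D G hD hG).trans ?_
  have h1 : (1 + (D + 1 / 2)) ^ m ≤ 2 ^ m * (1 + D) ^ m := by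
    rw [← mul_pow]
    exact pow_le_pow_left₀ (by linarith) (by linarith) m
  have h2 : (1 + D) ^ m ≤ (1 + D) ^ (2 * 2 ^ m + m) := pow_le_pow_right₀ (by linarith) (by omega)
  have h3 : (0 : ℝ) ≤ 1 + G * Real.exp (-D) := by positivity
  have h4 : (0 : ℝ) ≤ (1 + D) ^ (2 * 2 ^ m + m) := by positivity
  have h5 : ((2 * 2 ^ m + m : ℕ) : ℝ) = 2 * 2 ^ m + m := by push_cast; ring
  calc 2 * (1 + G * Real.exp (-D)) * (1 + (D + 1 / 2)) ^ m
      ≤ 2 * (1 + G * Real.exp (-D)) * (2 ^ m * (1 + D) ^ (2 * 2 ^ m + m)) := by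
        refine mul_le_mul_of_nonneg_left (h1.trans ?_) (by positivity)
        exact mul_le_mul_of_nonneg_left h2 (by positivity)
    _ = (2 * 2 ^ m) * (1 + D) ^ (2 * 2 ^ m + m) * (1 + G * Real.exp (-D)) := by ring
    _ ≤ ((2 * 2 ^ m + m : ℕ) : ℝ) * (1 + D) ^ (2 * 2 ^ m + m) * (1 + G * Real.exp (-D)) := by
        rw [h5]
        refine mul_le_mul_of_nonneg_right (mul_le_mul_of_nonneg_right ?_ h4) h3
        have : (0 : ℝ) ≤ m := Nat.cast_nonneg m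
        linarith

theorem s_MSP (hX : S_PRDX) (hH : S_HLS) (hV : S_DVM) : S_MSP := by
  obtain ⟨C1, hC1, hH⟩ := hH
  obtain ⟨C2, hC2, hV⟩ := hV
  refine ⟨⌈C1⌉₊ * C2 + 20 + C2, by omega, ?_⟩
  intro F K z tt d hF hK
  obtain ⟨b, hb1, hb2, hb3⟩ := hX z tt d
  have hS : (0 : ℝ) ≤ ∑ i, (d i : ℝ) := sum_nonneg fun _ _ => Nat.cast_nonneg _
  set S : ℝ := ∑ i, (d i : ℝ) with hSd
  set D : ℝ := S / 20 with hD
  have hD0 : 0 ≤ D := by positivity
  set s := (Icc 1 ⌊Real.exp (D + 1 / 2)⌋₊).filter (fun n : ℕ => |Real.log n - D| ≤ 1 / 2) with hs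
  have e1 : ∀ (f : ℕ) (χ : DirichletCharacter ℂ f) (k : ℤ), ∏ i, PX χ z (tt i) (d i) k =
      ∑ n ∈ s, ((b n : ℝ) : ℂ) * χ (n : ZMod f) * ch k (Real.log n) := by
    intro f χ k
    rw [hb1, hs]
    symm
    apply sum_subset (filter_subset _ _)
    intro n hn hn'
    rw [mem_filter, not_and] at hn'
    have h0 : b n = 0 := by
      by_contra h0
      rw [mem_Icc] at hn
      exact hn' (by rw [mem_Icc]; exact hn) (hb3 n hn.1 h0)
    rw [h0]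
    simp
  simp_rw [e1]
  have h1 := hH F K s (fun n => ((b n : ℝ) : ℂ)) D hF hK (by
    intro n hn
    rw [hs, mem_filter, mem_Icc] at hn
    exact ⟨hn.1.1, hn.2.trans (by norm_num)⟩)
  refine h1.trans ?_
  have hG : (0 : ℝ) ≤ (F : ℝ) ^ 2 * K := by positivity
  have h2 := hV D ((F : ℝ) ^ 2 * K) hD0 hG
  have h3 : ∑ n ∈ s, ‖((b n : ℝ) : ℂ)‖ ^ 2 * ((n : ℝ) + (F : ℝ) ^ 2 * K) ≤
      (1 + S) ^ 20 * (C2 * (1 + D) ^ C2 * (1 + (F : ℝ) ^ 2 * K * Real.exp (-D))) := by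
    refine le_trans ?_ (mul_le_mul_of_nonneg_left h2 (by positivity))
    rw [mul_sum]
    refine sum_le_sum fun n hn => ?_
    rw [hs, mem_filter, mem_Icc] at hn
    have h4 := hb2 n hn.1.1
    rw [Complex.norm_real, Real.norm_eq_abs]
    have h5 : |b n| ^ 2 ≤ ((1 + S) ^ 10 * (n.divisors.card : ℝ) ^ 10 / n) ^ 2 :=
      pow_le_pow_left₀ (abs_nonneg _) h4 2
    calc |b n| ^ 2 * ((n : ℝ) + (F : ℝ) ^ 2 * K)
        ≤ ((1 + S) ^ 10 * (n.divisors.card : ℝ) ^ 10 / n) ^ 2 * ((n : ℝ) + (F : ℝ) ^ 2 * K) :=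
          mul_le_mul_of_nonneg_right h5 (by positivity)
      _ = (1 + S) ^ 20 * (((n.divisors.card : ℝ) ^ 10 / n) ^ 2 * ((n : ℝ) + (F : ℝ) ^ 2 * K)) := by ring
  refine (mul_le_mul_of_nonneg_left h3 (by linarith)).trans ?_
  have h4 : C1 ≤ (⌈C1⌉₊ : ℝ) := Nat.le_ceil C1
  have h5 : (1 + D) ^ C2 ≤ (1 + S) ^ C2 := pow_le_pow_left₀ (by linarith) (by rw [hD]; linarith) C2
  have h6 : (1 + S) ^ (20 + C2) ≤ (1 + S) ^ (⌈C1⌉₊ * C2 + 20 + C2) :=
    pow_le_pow_right₀ (by linarith) (by omega)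
  have h7 : (0 : ℝ) ≤ 1 + (F : ℝ) ^ 2 * K * Real.exp (-D) := by positivity
  calc C1 * ((1 + S) ^ 20 * (C2 * (1 + D) ^ C2 * (1 + (F : ℝ) ^ 2 * K * Real.exp (-D))))
      ≤ (⌈C1⌉₊ : ℝ) * ((1 + S) ^ 20 * (C2 * (1 + S) ^ C2 * (1 + (F : ℝ) ^ 2 * K * Real.exp (-D)))) := by
        apply mul_le_mul h4 _ (by positivity) (by positivity)
        refine mul_le_mul_of_nonneg_left (mul_le_mul_of_nonneg_right ?_ h7) (by positivity)
        exact mul_le_mul_of_nonneg_left h5 (by positivity)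
    _ = (((⌈C1⌉₊ * C2 : ℕ) : ℝ) * (1 + S) ^ (20 + C2)) * (1 + (F : ℝ) ^ 2 * K * Real.exp (-D)) := by
        push_cast
        ring
    _ ≤ (((⌈C1⌉₊ * C2 + 20 + C2 : ℕ) : ℝ) * (1 + S) ^ (⌈C1⌉₊ * C2 + 20 + C2)) *
        (1 + (F : ℝ) ^ 2 * K * Real.exp (-D)) := by
        refine mul_le_mul_of_nonneg_right ?_ h7
        apply mul_le_mul _ h6 (by positivity) (by positivity)
        exact_mod_cast (by omega : ⌈C1⌉₊ * C2 ≤ ⌈C1⌉₊ * C2 + 20 + C2)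

end Pool.Agent.L7h23.BW
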