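import Pool.Agent.L7h23.BW.Mlsi
import Pool.Agent.L7h23.BW.Psv

/-!
Project BW (helper88), part HLS: the hybrid large sieve at integer frequencies.
-/

set_option autoImplicit false

namespace Pool.Agent.L7h23.BW

open Finset MeasureTheory
open Pool.Agent.H376R2.MR (ch DP FK)
open Pool.Agent.L7h88.BW (S_PSV S_MLSI S_HLS gk prm)

/-- the sum over a window -/
noncomputable def Wd (s : Finset ℕ) (b : ℕ → ℂ) (δ u : ℝ) : ℂ :=
  ∑ n ∈ s.filter (fun n : ℕ => u < Real.log n ∧ Real.log n ≤ u + δ), b n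

lemma cond_meas (x δ : ℝ) : MeasurableSet {u : ℝ | u < x ∧ x ≤ u + δ} := by
  have e3 : {u : ℝ | u < x ∧ x ≤ u + δ} = Set.Ico (x - δ) x := by
    ext u
    simp only [Set.mem_setOf_eq, Set.mem_Ico]
    constructor
    · rintro ⟨h1, h2⟩; exact ⟨by linarith, h1⟩
    · rintro ⟨h1, h2⟩; exact ⟨h2, by linarith⟩
  rw [e3]
  exact measurableSet_Ico

lemma Wd_eq (s : Finset ℕ) (b : ℕ → ℂ) (δ u : ℝ) :
    Wd s b δ u = ∑ n ∈ s, if u < Real.log n ∧ Real.log n ≤ u + δ then b n else 0 := by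
  unfold Wd
  rw [sum_filter]

lemma Wd_meas (s : Finset ℕ) (b : ℕ → ℂ) (δ : ℝ) : Measurable (Wd s b δ) := by
  have e : Wd s b δ = fun u => ∑ n ∈ s, if u < Real.log n ∧ Real.log n ≤ u + δ then b n else 0 := by
    funext u; exact Wd_eq s b δ u
  rw [e]
  refine Finset.measurable_sum _ fun n _ => ?_
  exact Measurable.ite (cond_meas _ _) measurable_const measurable_const

lemma Wd_bd (s : Finset ℕ) (b : ℕ → ℂ) (δ u : ℝ) : ‖Wd s b δ u‖ ≤ ∑ n ∈ s, ‖b n‖ := by
  rw [Wd_eq]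
  refine (norm_sum_le _ _).trans (sum_le_sum fun n _ => ?_)
  split_ifs
  · exact le_refl _
  · rw [norm_zero]; exact norm_nonneg _

lemma Wd_int (s : Finset ℕ) (b : ℕ → ℂ) (δ : ℝ) {x y : ℝ} (h : x ≤ y) :
    IntervalIntegrable (fun u => ‖Wd s b δ u‖ ^ 2) volume x y := by
  rw [intervalIntegrable_iff_integrableOn_Ioc_of_le h]
  refine Measure.integrableOn_of_bounded (M := (∑ n ∈ s, ‖b n‖) ^ 2) measure_Ioc_lt_top.ne
    ((Wd_meas s b δ).norm.pow_const 2).aestronglyMeasurable ?_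
  refine Filter.Eventually.of_forall fun u => ?_
  rw [Real.norm_of_nonneg (by positivity)]
  exact pow_le_pow_left₀ (norm_nonneg _) (Wd_bd s b δ u) 2

lemma int_cut_real {v0 δ x : ℝ} (c : ℝ) (h1 : v0 + δ ≤ x) (h2 : x < v0 + 2 * Real.pi) (hδ : 0 < δ) :
    ∫ u in v0..(v0 + 2 * Real.pi), (if u < x ∧ x ≤ u + δ then c else 0) = c * δ := by
  have h := int_cut (fun _ => 1) (c : ℂ) h1 h2 hδ
  have e1 : ∀ u : ℝ, (1 : ℂ) * (if u < x ∧ x ≤ u + δ then (c : ℂ) else 0) =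
      (((if u < x ∧ x ≤ u + δ then c else 0 : ℝ)) : ℂ) := by
    intro u
    split_ifs <;> simp
  simp_rw [e1] at h
  rw [intervalIntegral.integral_ofReal, intervalIntegral.integral_const] at h
  have h3 : (((∫ u in v0..(v0 + 2 * Real.pi), (if u < x ∧ x ≤ u + δ then c else 0 : ℝ)) : ℝ) : ℂ) =
      ((c * δ : ℝ) : ℂ) := by
    rw [h]
    simp
  exact_mod_cast h3

lemma cut_int (x δ c : ℝ) {a b : ℝ} (h : a ≤ b) :
    IntervalIntegrable (fun u : ℝ => if u < x ∧ x ≤ u + δ then c else 0) volume a b := by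
  rw [intervalIntegrable_iff_integrableOn_Ioc_of_le h]
  refine Measure.integrableOn_of_bounded (M := |c|) measure_Ioc_lt_top.ne
    (Measurable.ite (cond_meas _ _) measurable_const measurable_const).aestronglyMeasurable ?_
  refine Filter.Eventually.of_forall fun u => ?_
  split_ifs
  · exact le_refl _
  · simp

lemma ii_sum {κ : Type*} (t : Finset κ) {f : κ → ℝ → ℝ} {a b : ℝ}
    (h : ∀ i ∈ t, IntervalIntegrable (f i) volume a b) :
    IntervalIntegrable (fun u => ∑ i ∈ t, f i u) volume a b := by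
  have e : (fun u => ∑ i ∈ t, f i u) = ∑ i ∈ t, f i := by
    funext u
    rw [Finset.sum_apply]
  rw [e]
  exact IntervalIntegrable.sum t h

/-- lower bound for the Fourier coefficient -/
lemma gk_ge {K : ℕ} (hK : 1 ≤ K) {k : ℤ} (hk : k ∈ FK K) :
    1 / (K * Real.pi ^ 2) ≤ gk (1 / K) k := by
  have hpi := Real.pi_gt_three
  have hKr : (1 : ℝ) ≤ K := by exact_mod_cast hK
  unfold FK at hk
  rw [mem_Ioo] at hk
  unfold gk
  split_ifs with h0
  · rw [div_div]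
    apply one_div_le_one_div_of_le (by positivity)
    nlinarith [mul_le_mul_of_nonneg_left (show 2 ≤ Real.pi by linarith) (show 0 ≤ (K : ℝ) * Real.pi by positivity)]
  · have hkc : (k : ℝ) ≠ 0 := by exact_mod_cast h0
    have hk1 : |(k : ℝ)| ≤ K := by
      rw [abs_le]
      have h1 : -(K : ℤ) ≤ k := hk.1.le
      have h2 : k ≤ (K : ℤ) := hk.2.le
      constructor
      · exact_mod_cast h1
      · exact_mod_cast h2
    have hka : 0 < |(k : ℝ)| := abs_pos.2 hkc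
    have h3 : |Real.sin (k * (1 / K) / 2)| = Real.sin (|(k : ℝ)| / (2 * K)) := by
      have e1 : (k : ℝ) * (1 / K) / 2 = k / (2 * K) := by field_simp
      rw [e1]
      have h4 : 0 ≤ |(k : ℝ)| / (2 * K) := by positivity
      have h5 : |(k : ℝ)| / (2 * K) ≤ 1 := by
        rw [div_le_one (by positivity)]
        linarith
      have h6 : 0 ≤ Real.sin (|(k : ℝ)| / (2 * K)) :=
        Real.sin_nonneg_of_nonneg_of_le_pi h4 (by linarith)
      rcases abs_cases (k : ℝ) with ⟨h7, _⟩ | ⟨h7, _⟩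
      · rw [h7] at h6 ⊢
        exact abs_of_nonneg h6
      · rw [h7] at h6 ⊢
        rw [neg_div, Real.sin_neg] at h6 ⊢
        rw [abs_of_nonpos (by linarith)]
    rw [h3]
    have h4 : 2 / Real.pi * (|(k : ℝ)| / (2 * K)) ≤ Real.sin (|(k : ℝ)| / (2 * K)) := by
      apply Real.mul_le_sin (by positivity)
      rw [div_le_iff₀ (by positivity)]
      nlinarith
    rw [le_div_iff₀ (by positivity)]
    refine le_trans (le_of_eq ?_) h4
    field_simp

/-- the mean square over the frequencies -/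
lemma freq_bd (hP : S_PSV) {K : ℕ} (hK : 1 ≤ K) {s : Finset ℕ} {v : ℝ}
    (hs : ∀ n ∈ s, 1 ≤ n ∧ |Real.log n - v| ≤ 1) (b : ℕ → ℂ) :
    ∑ k ∈ FK K, ‖DP s b k‖ ^ 2 ≤ Real.pi ^ 3 * K ^ 2 / 2 *
      ∫ u in (v - 2)..(v - 2 + 2 * Real.pi), ‖Wd s b (1 / K) u‖ ^ 2 := by
  have hpi := Real.pi_gt_three
  have hKr : (1 : ℝ) ≤ K := by exact_mod_cast hK
  have hδ : (0 : ℝ) < 1 / K := by positivity
  have hδ1 : (1 : ℝ) / K ≤ 1 := by rw [div_le_one (by positivity)]; exact hKr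
  have H := hP s b (v - 2) (1 / K) hδ hδ1 (fun n hn => by
    obtain ⟨h1, h2⟩ := hs n hn
    rw [abs_le] at h2
    exact ⟨h1, by linarith, by linarith⟩)
  have h1 := sum_le_hasSum (FK K) (fun k _ => by positivity) H
  have h2 : (1 / (K * Real.pi ^ 2)) ^ 2 * ∑ k ∈ FK K, ‖DP s b k‖ ^ 2 ≤
      ∑ k ∈ FK K, gk (1 / K) k ^ 2 * ‖DP s b k‖ ^ 2 := by
    rw [mul_sum]
    refine sum_le_sum fun k hk => ?_
    exact mul_le_mul_of_nonneg_right (pow_le_pow_left₀ (by positivity) (gk_ge hK hk) 2) (by positivity)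
  have h3 := h2.trans h1
  have h4 : ∑ k ∈ FK K, ‖DP s b k‖ ^ 2 = (K * Real.pi ^ 2) ^ 2 *
      ((1 / (K * Real.pi ^ 2)) ^ 2 * ∑ k ∈ FK K, ‖DP s b k‖ ^ 2) := by
    field_simp
  rw [h4]
  refine (mul_le_mul_of_nonneg_left h3 (by positivity)).trans (le_of_eq ?_)
  unfold Wd
  field_simp

/-- the large sieve at one point -/
lemma point_bd (hM : S_MLSI) {F K : ℕ} (hF : 1 ≤ F) (hK : 1 ≤ K) (s : Finset ℕ)
    (hs : ∀ n ∈ s, 1 ≤ n) (b : ℕ → ℂ) (u : ℝ) :
    ∑ f ∈ Icc 1 F, ∑ χ ∈ prm f (fun _ => True), ‖Wd s (fun n => b n * χ (n : ZMod f)) (1 / K) u‖ ^ 2 ≤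
      6 * ∑ n ∈ s, if u < Real.log n ∧ Real.log n ≤ u + 1 / K then
        ‖b n‖ ^ 2 * (2 * n / K + 2 * (F : ℝ) ^ 2) else 0 := by
  have hKr : (1 : ℝ) ≤ K := by exact_mod_cast hK
  have hFr : (1 : ℝ) ≤ F := by exact_mod_cast hF
  set δ : ℝ := 1 / K with hδ
  have hδ0 : 0 < δ := by positivity
  have hδ1 : δ ≤ 1 := by rw [hδ, div_le_one (by positivity)]; exact hKr
  set M := ⌊Real.exp u⌋₊ with hMd
  have hle : M ≤ ⌊Real.exp (u + δ)⌋₊ := Nat.floor_le_floor (Real.exp_le_exp.2 (by linarith))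
  set N := ⌊Real.exp (u + δ)⌋₊ - M with hN
  have hMN : M + N = ⌊Real.exp (u + δ)⌋₊ := by omega
  set α : ℕ → ℂ := fun n => if n ∈ s ∧ (u < Real.log n ∧ Real.log n ≤ u + δ) then b n else 0 with hα
  have hmem : ∀ n ∈ s, (u < Real.log n ∧ Real.log n ≤ u + δ) → n ∈ Ioc M (M + N) := by
    intro n hn hc
    have hn0 : (0 : ℝ) < n := by have := hs n hn; exact_mod_cast this
    rw [mem_Ioc, hMN]
    constructor
    · rw [hMd]
      rw [Nat.floor_lt (Real.exp_pos u).le]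
      rw [← Real.exp_log hn0]
      exact Real.exp_lt_exp.2 hc.1
    · apply Nat.le_floor
      rw [← Real.exp_log hn0]
      exact Real.exp_le_exp.2 hc.2
  have key : ∀ g : ℕ → ℂ, ∑ n ∈ s.filter (fun n : ℕ => u < Real.log n ∧ Real.log n ≤ u + δ), b n * g n =
      ∑ n ∈ Ioc M (M + N), α n * g n := by
    intro g
    have hsub : s.filter (fun n : ℕ => u < Real.log n ∧ Real.log n ≤ u + δ) ⊆ Ioc M (M + N) := by
      intro n hn
      rw [mem_filter] at hn
      exact hmem n hn.1 hn.2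
    rw [← sum_subset hsub]
    · refine sum_congr rfl fun n hn => ?_
      rw [mem_filter] at hn
      rw [hα]
      simp only
      rw [if_pos hn]
    · intro n _ hn
      rw [mem_filter] at hn
      rw [hα]
      simp only
      rw [if_neg hn, zero_mul]
  have hN1 : (N : ℝ) ≤ 2 * δ * Real.exp u + 1 := by
    have h1 : (N : ℝ) = (⌊Real.exp (u + δ)⌋₊ : ℝ) - M := by
      rw [hN, Nat.cast_sub hle]
    have h2 : ((⌊Real.exp (u + δ)⌋₊ : ℕ) : ℝ) ≤ Real.exp (u + δ) := Nat.floor_le (Real.exp_pos _).le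
    have h3 : Real.exp u < M + 1 := Nat.lt_floor_add_one _
    have h4 : Real.exp δ - 1 ≤ 2 * δ := by
      have h5 := Real.abs_exp_sub_one_le (x := δ) (by rw [abs_of_pos hδ0]; exact hδ1)
      rw [abs_of_pos hδ0] at h5
      exact (le_abs_self _).trans h5
    rw [h1]
    have h6 : Real.exp (u + δ) = Real.exp u * Real.exp δ := Real.exp_add u δ
    have h7 : Real.exp u * (Real.exp δ - 1) ≤ Real.exp u * (2 * δ) :=
      mul_le_mul_of_nonneg_left h4 (Real.exp_pos u).le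
    nlinarith
  have h1 := hM M N F α
  have h2 : ∑ f ∈ Icc 1 F, ∑ χ ∈ prm f (fun _ => True),
      ‖Wd s (fun n => b n * χ (n : ZMod f)) δ u‖ ^ 2 ≤
      ∑ f ∈ Icc 1 F, ((f : ℝ) / (Nat.totient f : ℝ)) * ∑ χ ∈ prm f (fun _ => True),
        ‖∑ n ∈ Ioc M (M + N), α n * χ (n : ZMod f)‖ ^ 2 := by
    refine sum_le_sum fun f hf => ?_
    rw [mem_Icc] at hf
    have e1 : ∀ χ ∈ prm f (fun _ => True), ‖Wd s (fun n => b n * χ (n : ZMod f)) δ u‖ ^ 2 =
        ‖∑ n ∈ Ioc M (M + N), α n * χ (n : ZMod f)‖ ^ 2 := by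
      intro χ _
      unfold Wd
      rw [key (fun n => χ (n : ZMod f))]
    rw [sum_congr rfl e1]
    have h3 : (0 : ℝ) < Nat.totient f := by
      have := Nat.totient_pos.mpr (show 0 < f by omega)
      exact_mod_cast this
    have h4 : (1 : ℝ) ≤ (f : ℝ) / (Nat.totient f : ℝ) := by
      rw [one_le_div h3]
      exact_mod_cast Nat.totient_le f
    exact le_mul_of_one_le_left (sum_nonneg fun _ _ => by positivity) h4
  refine h2.trans (h1.trans ?_)
  have h3 : ∑ n ∈ Ioc M (M + N), ‖α n‖ ^ 2 =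
      ∑ n ∈ s, if u < Real.log n ∧ Real.log n ≤ u + δ then ‖b n‖ ^ 2 else 0 := by
    rw [← sum_filter]
    have hsub : s.filter (fun n : ℕ => u < Real.log n ∧ Real.log n ≤ u + δ) ⊆ Ioc M (M + N) := by
      intro n hn
      rw [mem_filter] at hn
      exact hmem n hn.1 hn.2
    rw [← sum_subset hsub]
    · refine sum_congr rfl fun n hn => ?_
      rw [mem_filter] at hn
      rw [hα]
      simp only
      rw [if_pos hn]
    · intro n _ hn
      rw [mem_filter] at hn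
      rw [hα]
      simp only
      rw [if_neg hn, norm_zero]
      ring
  rw [h3, mul_assoc, mul_sum]
  refine mul_le_mul_of_nonneg_left (sum_le_sum fun n hn => ?_) (by norm_num)
  split_ifs with hc
  · have hn0 : (0 : ℝ) < n := by have := hs n hn; exact_mod_cast this
    have h5 : Real.exp u ≤ n := by
      rw [← Real.exp_log hn0]
      exact Real.exp_le_exp.2 hc.1.le
    rw [mul_comm]
    refine mul_le_mul_of_nonneg_left ?_ (by positivity)
    have h6 : 2 * δ * Real.exp u ≤ 2 * δ * n := mul_le_mul_of_nonneg_left h5 (by positivity)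
    have h7 : 2 * δ * n = 2 * n / K := by rw [hδ]; ring
    have h8 : (1 : ℝ) ≤ (F : ℝ) ^ 2 := one_le_pow₀ hFr
    linarith
  · rw [mul_zero]

theorem s_HLS (hM : S_MLSI) (hP : S_PSV) : S_HLS := by
  have hpi := Real.pi_gt_three
  have hpi4 := Real.pi_le_four
  refine ⟨6 * Real.pi ^ 3, ?_, ?_⟩
  · have : (1 : ℝ) ≤ Real.pi ^ 3 := one_le_pow₀ (by linarith)
    linarith
  intro F K s b v hF hK hs
  have hKr : (1 : ℝ) ≤ K := by exact_mod_cast hK
  have h1 : ∀ f ∈ Icc 1 F, ∀ χ ∈ prm f (fun _ => True), ∑ k ∈ FK K,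
      ‖∑ n ∈ s, b n * χ (n : ZMod f) * ch k (Real.log n)‖ ^ 2 ≤ Real.pi ^ 3 * K ^ 2 / 2 *
      ∫ u in (v - 2)..(v - 2 + 2 * Real.pi), ‖Wd s (fun n => b n * χ (n : ZMod f)) (1 / K) u‖ ^ 2 := by
    intro f _ χ _
    exact freq_bd hP hK hs (fun n => b n * χ (n : ZMod f))
  refine (sum_le_sum fun f hf => sum_le_sum fun χ hχ => h1 f hf χ hχ).trans ?_
  have hab : v - 2 ≤ v - 2 + 2 * Real.pi := by linarith
  have e1 : ∑ f ∈ Icc 1 F, ∑ χ ∈ prm f (fun _ => True), Real.pi ^ 3 * K ^ 2 / 2 *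
      ∫ u in (v - 2)..(v - 2 + 2 * Real.pi), ‖Wd s (fun n => b n * χ (n : ZMod f)) (1 / K) u‖ ^ 2 =
      Real.pi ^ 3 * K ^ 2 / 2 * ∫ u in (v - 2)..(v - 2 + 2 * Real.pi),
        ∑ f ∈ Icc 1 F, ∑ χ ∈ prm f (fun _ => True), ‖Wd s (fun n => b n * χ (n : ZMod f)) (1 / K) u‖ ^ 2 := by
    rw [intervalIntegral.integral_finset_sum, mul_sum]
    · refine sum_congr rfl fun f _ => ?_
      rw [intervalIntegral.integral_finset_sum, mul_sum]
      intro χ _
      exact Wd_int _ _ _ hab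
    · intro f _
      exact ii_sum _ fun χ _ => Wd_int _ _ _ hab
  rw [e1]
  have h2 : ∫ u in (v - 2)..(v - 2 + 2 * Real.pi),
      ∑ f ∈ Icc 1 F, ∑ χ ∈ prm f (fun _ => True), ‖Wd s (fun n => b n * χ (n : ZMod f)) (1 / K) u‖ ^ 2 ≤
      ∫ u in (v - 2)..(v - 2 + 2 * Real.pi), 6 * ∑ n ∈ s, (if u < Real.log n ∧ Real.log n ≤ u + 1 / K then
        ‖b n‖ ^ 2 * (2 * n / K + 2 * (F : ℝ) ^ 2) else 0) := by
    apply intervalIntegral.integral_mono_on hab
    · exact ii_sum _ fun f _ => ii_sum _ fun χ _ => Wd_int _ _ _ hab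
    · exact (ii_sum _ fun n _ => cut_int _ _ _ hab).const_mul _
    · intro u _
      exact point_bd hM hF hK s (fun n hn => (hs n hn).1) b u
  refine (mul_le_mul_of_nonneg_left h2 (by positivity)).trans ?_
  rw [intervalIntegral.integral_const_mul, intervalIntegral.integral_finset_sum
    (fun n _ => cut_int _ _ _ hab)]
  have h3 : ∀ n ∈ s, (∫ u in (v - 2)..(v - 2 + 2 * Real.pi),
      (if u < Real.log n ∧ Real.log n ≤ u + 1 / K then
        ‖b n‖ ^ 2 * (2 * n / K + 2 * (F : ℝ) ^ 2) else 0)) =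
      ‖b n‖ ^ 2 * (2 * n / K + 2 * (F : ℝ) ^ 2) * (1 / K) := by
    intro n hn
    obtain ⟨h4, h5⟩ := hs n hn
    rw [abs_le] at h5
    have hδ1 : (1 : ℝ) / K ≤ 1 := by rw [div_le_one (by positivity)]; exact hKr
    exact int_cut_real _ (by linarith) (by linarith) (by positivity)
  rw [sum_congr rfl h3, mul_sum, mul_sum, mul_sum]
  refine le_of_eq (sum_congr rfl fun n _ => ?_)
  field_simp

end Pool.Agent.L7h23.BW
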