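import Pool.Agent.L7h88.BW.Stm
import Pool.Agent.Helper112.MultLS

/-!
Project BW (helper88), part MLSI: the multiplicative large sieve on an interval.
-/

set_option autoImplicit false

namespace Pool.Agent.L7h23.BW

open Finset
open Pool.Agent.Helper112
open Pool.Agent.L7h88.BW (S_MLSI prm)

/-- shift of a sum -/
lemma sum_Ioc_shift (M N : ℕ) (g : ℕ → ℂ) :
    ∑ n ∈ Icc 1 N, g (n + M) = ∑ n ∈ Ioc M (M + N), g n := by
  apply sum_bij (fun n _ => n + M)
  · intro n hn
    rw [mem_Icc] at hn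
    rw [mem_Ioc]
    omega
  · intro a _ b _ hab
    omega
  · intro b hb
    rw [mem_Ioc] at hb
    exact ⟨b - M, by rw [mem_Icc]; omega, by omega⟩
  · intro n _
    rfl

lemma sum_cut (M N : ℕ) (α : ℕ → ℂ) (g : ℕ → ℂ) :
    ∑ n ∈ Icc 1 (M + N), (if M < n then α n else 0) * g n = ∑ n ∈ Ioc M (M + N), α n * g n := by
  symm
  have hsub : Ioc M (M + N) ⊆ Icc 1 (M + N) := by
    intro n hn
    rw [mem_Ioc] at hn
    rw [mem_Icc]
    omega
  rw [← sum_subset hsub]
  · refine sum_congr rfl fun n hn => ?_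
    rw [mem_Ioc] at hn
    rw [if_pos hn.1]
  · intro n hn hn'
    rw [mem_Icc] at hn
    rw [mem_Ioc] at hn'
    have : ¬ M < n := by omega
    rw [if_neg this, zero_mul]

theorem s_MLSI : S_MLSI := by
  classical
  intro M N F α
  have h := additive_large_sieve N F (fun m => α (m + M))
  have e0 : ∑ n ∈ Icc 1 N, ‖α (n + M)‖ ^ 2 = ∑ n ∈ Ioc M (M + N), ‖α n‖ ^ 2 := by
    have h1 := sum_Ioc_shift M N (fun n => ((‖α n‖ ^ 2 : ℝ) : ℂ))
    exact_mod_cast h1
  rw [e0] at h
  refine le_trans (sum_le_sum ?_) h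
  intro f hf
  rw [mem_Icc] at hf
  have : NeZero f := ⟨by omega⟩
  have h2 := MLS.prim_bound f (M + N) (fun n => if M < n then α n else 0)
  have e1 : ∀ χ : DirichletCharacter ℂ f, ∑ n ∈ Icc 1 (M + N), (if M < n then α n else 0) * χ (n : ZMod f) =
      ∑ n ∈ Ioc M (M + N), α n * χ (n : ZMod f) := fun χ => sum_cut M N α _
  simp_rw [e1] at h2
  have e2 : prm f (fun _ => True) =
      (univ : Finset (DirichletCharacter ℂ f)).filter (fun χ => χ.IsPrimitive) := by
    unfold prm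
    ext χ
    simp
  rw [e2]
  refine h2.trans ?_
  rw [MLS.sum_units]
  refine le_of_eq (sum_congr rfl fun a _ => ?_)
  congr 1
  rw [sum_cut M N α (fun n => ee (n * a / f)), ← sum_Ioc_shift M N (fun n => α n * ee (n * a / f))]
  have e3 : ∀ n ∈ Icc 1 N, α (n + M) * ee (((n + M : ℕ) : ℝ) * a / f) =
      ee (M * a / f) * (α (n + M) * ee (n * a / f)) := by
    intro n _
    have e4 : (((n + M : ℕ) : ℝ) * a / f) = M * a / f + n * a / f := by
      push_cast
      ring
    rw [e4, ls_ee_add]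
    ring
  rw [sum_congr rfl e3, ← mul_sum, norm_mul, ls_norm_ee, one_mul]

end Pool.Agent.L7h23.BW
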