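import Pool.Agent.L7h88.BW.Stm

/-!
Project BW (helper88), parts PRDX and TUX: products of the factors with a character.
-/

set_option autoImplicit false

namespace Pool.Agent.L7h23.BW

open Finset
open Pool.Agent.L7h88.BW
open Pool.Agent.H376R2.MR (ch DP w)
open Pool.Agent.Q240.KS (cf sp ty ed DY zY)
open Pool.Agent.Q95.KS

/-- the Dirichlet polynomial with a completely multiplicative twist -/
noncomputable def Lg (g : ℕ → ℂ) (N : ℕ) (f : ArithmeticFunction ℝ) : ℂ :=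
  ∑ n ∈ Icc 1 N, ((f n : ℝ) : ℂ) * g n

variable {g : ℕ → ℂ} (g1 : g 1 = 1) (gm : ∀ x y : ℕ, 1 ≤ x → 1 ≤ y → g (x * y) = g x * g y)

theorem Lg_mono (g : ℕ → ℂ) {N M : ℕ} (h : N ≤ M) {f : ArithmeticFunction ℝ} (hf : Sup f N) :
    Lg g N f = Lg g M f := by
  unfold Lg
  apply sum_subset (Icc_subset_Icc_right h)
  intro n hn hn'
  rw [mem_Icc] at hn hn'
  have : N < n := by
    by_contra hc
    exact hn' ⟨hn.1, not_lt.mp hc⟩
  rw [hf n this]
  simp

theorem Lg_indep (g : ℕ → ℂ) {N M : ℕ} {f : ArithmeticFunction ℝ} (hf : Sup f N) (hf' : Sup f M) :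
    Lg g N f = Lg g M f := by
  rw [Lg_mono g (le_max_left N M) hf, Lg_mono g (le_max_right N M) hf']

include gm in
theorem Lg_mul {f f' : ArithmeticFunction ℝ} {N M : ℕ} (hf : Sup f N) (hg : Sup f' M) :
    Lg g N f * Lg g M f' = Lg g (N * M) (f * f') := by
  unfold Lg
  rw [sum_mul_sum, ← sum_product']
  have hmaps : ∀ p ∈ Icc 1 N ×ˢ Icc 1 M, p.1 * p.2 ∈ Icc 1 (N * M) := by
    rintro ⟨x, y⟩ hp
    rw [mem_product, mem_Icc, mem_Icc] at hp
    rw [mem_Icc]
    exact ⟨Nat.mul_pos hp.1.1 hp.2.1, Nat.mul_le_mul hp.1.2 hp.2.2⟩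
  rw [← sum_fiberwise_of_maps_to hmaps]
  apply sum_congr rfl
  intro n hn
  rw [mem_Icc] at hn
  rw [ArithmeticFunction.mul_apply]
  push_cast
  rw [sum_mul]
  have hsub : (Icc 1 N ×ˢ Icc 1 M).filter (fun p => p.1 * p.2 = n) ⊆ n.divisorsAntidiagonal := by
    rintro ⟨x, y⟩ hp
    rw [mem_filter] at hp
    rw [Nat.mem_divisorsAntidiagonal]
    exact ⟨hp.2, by omega⟩
  rw [← sum_subset hsub]
  · apply sum_congr rfl
    rintro ⟨x, y⟩ hp
    rw [mem_filter, mem_product, mem_Icc, mem_Icc] at hp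
    obtain ⟨⟨hx, hy⟩, hxy⟩ := hp
    simp only at hx hy hxy ⊢
    rw [← hxy, gm x y hx.1 hy.1]
    ring
  · rintro ⟨x, y⟩ hp hnp
    rw [Nat.mem_divisorsAntidiagonal] at hp
    rw [mem_filter, mem_product, mem_Icc, mem_Icc] at hnp
    obtain ⟨h1, h2⟩ := hp
    simp only at h1 hnp ⊢
    have hx1 : 1 ≤ x := by
      rcases Nat.eq_zero_or_pos x with h | h
      · rw [h, zero_mul] at h1
        omega
      · exact h
    have hy1 : 1 ≤ y := by
      rcases Nat.eq_zero_or_pos y with h | h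
      · rw [h, mul_zero] at h1
        omega
      · exact h
    by_cases hx : N < x
    · rw [hf x hx]
      simp
    · by_cases hy : M < y
      · rw [hg y hy]
        simp
      · exfalso
        exact hnp ⟨⟨⟨hx1, not_lt.mp hx⟩, ⟨hy1, not_lt.mp hy⟩⟩, h1⟩

include g1 gm in
theorem Lg_prod (s : Finset (Fin 10)) (N : Fin 10 → ℕ)
    (f : Fin 10 → ArithmeticFunction ℝ) (hf : ∀ i, Sup (f i) (N i)) :
    Sup (∏ i ∈ s, f i) (∏ i ∈ s, N i) ∧
      ∏ i ∈ s, Lg g (N i) (f i) = Lg g (∏ i ∈ s, N i) (∏ i ∈ s, f i) := by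
  induction s using Finset.induction_on with
  | empty =>
    constructor
    · intro n hn
      rw [prod_empty] at hn ⊢
      exact ArithmeticFunction.one_apply_ne (by omega)
    · simp [Lg, g1]
  | insert a s ha ih =>
    rw [prod_insert ha, prod_insert ha, prod_insert ha, ih.2]
    exact ⟨Sup_mul (hf a) ih.1, Lg_mul gm (hf a) ih.1⟩

/-- the twist by `χ(n) n^{-ik}` -/
noncomputable def gx {q : ℕ} (χ : DirichletCharacter ℂ q) (k : ℤ) (n : ℕ) : ℂ :=
  χ (n : ZMod q) * ch k (Real.log n)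

theorem gx_one {q : ℕ} (χ : DirichletCharacter ℂ q) (k : ℤ) : gx χ k 1 = 1 := by
  simp [gx, ch_zero]

theorem gx_mul {q : ℕ} (χ : DirichletCharacter ℂ q) (k : ℤ) (x y : ℕ) (hx : 1 ≤ x) (hy : 1 ≤ y) :
    gx χ k (x * y) = gx χ k x * gx χ k y := by
  unfold gx
  have hx0 : (x : ℝ) ≠ 0 := by
    have : x ≠ 0 := by omega
    exact_mod_cast this
  have hy0 : (y : ℝ) ≠ 0 := by
    have : y ≠ 0 := by omega
    exact_mod_cast this
  push_cast
  rw [Real.log_mul hx0 hy0, ch_add, map_mul]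
  ring

theorem PX_eq {q : ℕ} (χ : DirichletCharacter ℂ q) (z : ℕ) (t : Fin 3) (d : ℕ) (k : ℤ) :
    PX χ z t d k = Lg (gx χ k) ⌊Real.exp (((d : ℝ) + 1) / 20)⌋₊ (af z t d) := by
  unfold PX Lg
  apply sum_congr rfl
  intro n _
  rw [af_apply, gx]
  ring

theorem supp_prod' (z : ℕ) (tt : Fin 10 → Fin 3) (d : Fin 10 → ℕ) (s : Finset (Fin 10)) :
    ∀ n : ℕ, (∏ i ∈ s, af z (tt i) (d i)) n ≠ 0 →
      |Real.log n - (∑ i ∈ s, (d i : ℝ)) / 20| ≤ (s.card : ℝ) / 20 := by
  induction s using Finset.induction_on with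
  | empty =>
    intro n hn
    rw [prod_empty] at hn
    have : n = 1 := by
      by_contra h
      exact hn (ArithmeticFunction.one_apply_ne h)
    rw [this]
    simp
  | insert a s ha ih =>
    intro n hn
    rw [prod_insert ha, ArithmeticFunction.mul_apply] at hn
    obtain ⟨⟨x, y⟩, hxy, hne⟩ := exists_ne_zero_of_sum_ne_zero hn
    rw [Nat.mem_divisorsAntidiagonal] at hxy
    simp only at hxy hne
    have h1 : af z (tt a) (d a) x ≠ 0 := left_ne_zero_of_mul hne
    have h2 := ih y (right_ne_zero_of_mul hne)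
    have h3 := cf_ne h1
    have hx0 : (x : ℝ) ≠ 0 := by
      have : x ≠ 0 := fun h => hxy.2 (by rw [← hxy.1, h, zero_mul])
      exact_mod_cast this
    have hy0 : (y : ℝ) ≠ 0 := by
      have : y ≠ 0 := fun h => hxy.2 (by rw [← hxy.1, h, mul_zero])
      exact_mod_cast this
    have e1 : Real.log (n : ℝ) = Real.log x + Real.log y := by
      rw [← hxy.1]
      push_cast
      exact Real.log_mul hx0 hy0
    rw [sum_insert ha, card_insert_of_notMem ha, e1]
    push_cast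
    rw [abs_le] at h2 h3 ⊢
    constructor <;> linarith [h2.1, h2.2, h3.1, h3.2]

theorem prod_ne {z : ℕ} {tt : Fin 10 → Fin 3} {d : Fin 10 → ℕ} {n : ℕ}
    (h : (∏ i, af z (tt i) (d i)) n ≠ 0) :
    |Real.log n - (∑ i, (d i : ℝ)) / 20| ≤ 1 / 2 := by
  have h1 := supp_prod' z tt d univ n h
  rw [card_univ, Fintype.card_fin] at h1
  norm_num at h1
  norm_num
  exact h1

theorem prod_sup (z : ℕ) (tt : Fin 10 → Fin 3) (d : Fin 10 → ℕ) :
    Sup (∏ i, af z (tt i) (d i)) ⌊Real.exp ((∑ i, (d i : ℝ)) / 20 + 1 / 2)⌋₊ := by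
  intro n hn
  by_contra hne
  have h1 := (abs_le.mp (prod_ne hne)).2
  have hn0 : 0 < n := by omega
  have h3 : (n : ℝ) ≤ Real.exp ((∑ i, (d i : ℝ)) / 20 + 1 / 2) := by
    rw [← Real.log_le_iff_le_exp (by exact_mod_cast hn0)]
    linarith
  have := Nat.le_floor h3
  omega

theorem prodPX {q : ℕ} (χ : DirichletCharacter ℂ q) (z : ℕ) (tt : Fin 10 → Fin 3)
    (d : Fin 10 → ℕ) (k : ℤ) {N : ℕ} (hN : Sup (∏ i, af z (tt i) (d i)) N) :
    ∏ i, PX χ z (tt i) (d i) k = Lg (gx χ k) N (∏ i, af z (tt i) (d i)) := by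
  have h1 := Lg_prod (gx_one χ k) (gx_mul χ k) univ (fun i => ⌊Real.exp (((d i : ℝ) + 1) / 20)⌋₊)
    (fun i => af z (tt i) (d i)) (fun i => af_sup z (tt i) (d i))
  have h2 : ∏ i, PX χ z (tt i) (d i) k =
      ∏ i, Lg (gx χ k) ⌊Real.exp (((d i : ℝ) + 1) / 20)⌋₊ (af z (tt i) (d i)) :=
    prod_congr rfl fun i _ => PX_eq χ z (tt i) (d i) k
  rw [h2, h1.2]
  exact Lg_indep _ h1.1 hN

theorem cf_bound (z : ℕ) (t : Fin 3) (d m : ℕ) : |cf z t d m| ≤ (1 + d) / m := by
  by_cases h : cf z t d m = 0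
  · rw [h, abs_zero]
    positivity
  · have h1 := (abs_le.mp (cf_ne h)).2
    rw [cf_eq, abs_div, abs_mul, abs_of_nonneg (w_nonneg _), Nat.abs_cast]
    apply div_le_div_of_nonneg_right _ (Nat.cast_nonneg _)
    have hd : (0:ℝ) ≤ d := Nat.cast_nonneg d
    have hlm : 0 ≤ Real.log (m : ℝ) := Real.log_natCast_nonneg m
    have h2 : |gt z t m| ≤ 1 + d := by
      unfold gt
      split_ifs
      · have h1 : |ArithmeticFunction.moebius m| ≤ 1 := ArithmeticFunction.abs_moebius_le_one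
        have h2 : |((ArithmeticFunction.moebius m : ℤ) : ℝ)| ≤ 1 := by exact_mod_cast h1
        linarith
      · rw [abs_zero]
        linarith
      · rw [abs_one]
        linarith
      · rw [abs_of_nonneg hlm]
        linarith
    calc |gt z t m| * w (20 * Real.log m - d) ≤ (1 + d) * 1 := by
          apply mul_le_mul h2 (w_le_one _) (w_nonneg _) (by positivity)
      _ = 1 + d := mul_one _

theorem s_PRDX : S_PRDX := by
  intro z tt d
  refine ⟨fun n => (∏ i, af z (tt i) (d i)) n, ?_, ?_, ?_⟩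
  · intro q χ k
    rw [prodPX χ z tt d k (prod_sup z tt d)]
    unfold Lg gx
    apply sum_congr rfl
    intro n _
    ring
  · intro n hn
    have hn0 : n ≠ 0 := by omega
    have h1 := prod_bound hn0 univ (fun i => af z (tt i) (d i)) (fun i => 1 + (d i : ℝ))
      (fun i => by positivity) (fun i m _ => cf_bound z (tt i) (d i) m) n dvd_rfl
    rw [card_univ, Fintype.card_fin] at h1
    refine h1.trans ?_
    have h2 : ∏ i, (1 + (d i : ℝ)) ≤ (1 + ∑ i, (d i : ℝ)) ^ 10 := by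
      have h3 : ∏ i : Fin 10, (1 + (d i : ℝ)) ≤ ∏ _i : Fin 10, (1 + ∑ i, (d i : ℝ)) := by
        apply prod_le_prod
        · intro i _
          positivity
        · intro i _
          have := single_le_sum (f := fun i => (d i : ℝ)) (fun i _ => Nat.cast_nonneg _) (mem_univ i)
          linarith
      rw [prod_const, card_univ, Fintype.card_fin] at h3
      exact h3
    apply div_le_div_of_nonneg_right _ (Nat.cast_nonneg _)
    exact mul_le_mul_of_nonneg_right h2 (by positivity)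
  · intro n _ h
    exact prod_ne h

theorem s_TUX : S_TUX := by
  intro Y q χ k
  have h1 : AX χ Y k = ∑ d ∈ DY Y, (ed d : ℂ) *
      ∑ n ∈ Icc 1 ⌊Real.exp (Y + 3 / 2)⌋₊, ((TT (zY Y) d n : ℝ) : ℂ) *
        (χ (n : ZMod q) * ch k (Real.log n)) := by
    unfold AX
    apply sum_congr rfl
    intro d hd
    rw [prodPX χ (zY Y) ty d k (TT_sup hd)]
    rfl
  rw [h1]
  simp only [mul_sum]
  rw [sum_comm]
  apply sum_congr rfl
  intro n _
  unfold aY
  push_cast
  rw [sum_mul, sum_mul]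
  apply sum_congr rfl
  intro d _
  ring

end Pool.Agent.L7h23.BW
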